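import Pool.Agent.Y157.PC.Stm
import Pool.Agent.Y157.GT.Stm
import Pool.Agent.Y157.PS.GeoC

/-!
# A section acts trivially on inertia at the primes of good reduction

(helper968, for project PC of helper157.)  The reduction to the abstract statements.
-/

set_option autoImplicit false
set_option linter.all false

open Polynomial FF

namespace Pool.Agent.Y968.PC

open Pool.Agent.Y157.PS Pool.Agent.Y157.PC Pool.Agent.Y157.GT

/-! ## Valuation rings -/

section

variable {κ : Type} [Field κ] (V : ValuationSubring κ)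

/-- the integers which are prime to the residue characteristic are units -/
theorem int_isU {p : ℕ} (hp : p.Prime) (hpV : (p : κ) ∈ V.nonunits) {m : ℤ}
    (hm : ¬ (p : ℤ) ∣ m) : IsU V (m : κ) := by
  have h1 : IsCoprime (p : ℤ) m :=
    (Prime.coprime_iff_not_dvd (Nat.prime_iff_prime_int.1 hp)).2 hm
  obtain ⟨a, b, hab⟩ := h1
  refine isU_of_not_nonunit (intCast_mem V m) fun h => ?_
  have h2 : ((a : ℤ) : κ) * (p : κ) + (b : κ) * (m : κ) ∈ V.nonunits :=
    non_add (non_mul (intCast_mem V a) hpV) (non_mul (intCast_mem V b) h)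
  have h3 : ((a : ℤ) : κ) * (p : κ) + (b : κ) * (m : κ) = 1 := by
    have := congrArg (fun z : ℤ => (z : κ)) hab
    push_cast at this
    exact this
  rw [h3] at h2
  exact isU_one.not_nonunit h2

theorem comap_non' {k : Type} [Field k] (i : k →+* κ) (z : k) :
    z ∈ (V.comap i).nonunits ↔ i z ∈ V.nonunits := by
  rw [nonunits_iff, nonunits_iff, ValuationSubring.mem_comap, ValuationSubring.mem_comap,
    map_inv₀, map_eq_zero]

/-- an inertia element fixes the square root of a unit which it fixes -/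
theorem ine_fix {k : Type} [Field k] [Algebra k κ] (h2 : IsU V (2 : κ)) {σ : κ ≃ₐ[k] κ}
    (hσ : Ine V σ) {δ : κ} (hδ : IsU V δ) (h : σ (δ ^ 2) = δ ^ 2) : σ δ = δ := by
  have h3 : (σ δ - δ) * (σ δ + δ) = 0 := by
    rw [map_pow] at h
    linear_combination h
  rcases mul_eq_zero.1 h3 with h4 | h4
  · exact sub_eq_zero.1 h4
  · exfalso
    have h5 := hσ.2 δ hδ.2.1
    have h6 : σ δ - δ = 2 * (-δ) := by linear_combination h4
    rw [h6] at h5
    have h7 := non_neg (non_of_isU_mul h2 h5)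
    rw [neg_neg] at h7
    exact hδ.not_nonunit h7

end

/-! ## The abstract form -/

section absM

variable {k κ R F M N : Type} [Field k] [CharZero k]
    [Field κ] [Algebra k κ] [IsAlgClosure k κ]
    [Field R] [Field F] [Field M] [Field N] [Algebra κ R] [Algebra R M] [Algebra κ M]
    [IsScalarTower κ R M] [Algebra F N]

/-- the abstract form: `M` is the covering field and `N` is isomorphic to `M` -/
theorem gredM (hWGTG : S_WGTG) (hND : S_NDISC) (hGEX : S_GEX) (hGUN : S_GUN) {ℓ : ℕ}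
    [Fact ℓ.Prime] (V : ValuationSubring κ) (A : ValuationSubring k)
    [IsDiscreteValuationRing A] [Finite (IsLocalRing.ResidueField A)]
    (h1 : ∀ a : A, algebraMap k κ (a : k) ∈ V)
    (h2 : ∀ a ∈ IsLocalRing.maximalIdeal A, algebraMap k κ (a : k) ∈ V.nonunits)
    (h3 : IsUnit (ℓ : A)) (δ : κ) (hδ0 : δ ≠ 0) (hδ : ∀ σ : κ ≃ₐ[k] κ, σ δ = δ)
    (x' : R) (B : Finset κ) (Y' : M)
    (hCov : Cov ℓ κ R M x' B Y') (hGood : Good V B) (eqv : M ≃+* N) (x y : F)
    (hx : eqv (algebraMap R M x') = algebraMap F N x)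
    (hy : eqv Y' = eqv (algebraMap κ M δ) * algebraMap F N y)
    (S : (κ ≃ₐ[k] κ) →* (N ≃ₐ[F] N))
    (hcont : ∀ z : N, ∃ E : IntermediateField k κ, FiniteDimensional k E ∧
      ∀ σ ∈ E.fixingSubgroup, S σ z = z)
    (hcompat : ∀ σ c, S σ (eqv (algebraMap κ M c)) = eqv (algebraMap κ M (σ c))) :
    ∃ O : ValuationSubring N,
      (∀ c : κ, c ∈ V.nonunits → eqv (algebraMap κ M c) ∈ O.nonunits) ∧
      (∀ g : κ[X], (∀ n, g.coeff n ∈ V) → (∃ n, IsU V (g.coeff n)) →
        IsU O (eqv (aeval (algebraMap R M x') g))) ∧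
      ∀ σ : κ ≃ₐ[k] κ, Ine V σ → ∀ z ∈ O, S σ z - z ∈ O.nonunits := by
  classical
  haveI hkb : IsAlgClosed κ := IsAlgClosure.isAlgClosed k
  haveI hch : CharZero κ := charZero_of_injective_algebraMap (algebraMap k κ).injective
  letI : Algebra A κ := ((algebraMap k κ).comp (algebraMap A k)).toAlgebra
  haveI : IsScalarTower A k κ := IsScalarTower.of_algebraMap_eq fun _ => rfl
  let s' : (κ ≃ₐ[k] κ) →* RingAut M := conjSec eqv S
  have hs' : ∀ σ z, eqv (s' σ z) = S σ (eqv z) := fun σ z => conjSec_apply eqv S σ z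
  have hconst : ∀ σ c, s' σ (algebraMap κ M c) = algebraMap κ M (σ c) := by
    intro σ c
    apply eqv.injective
    rw [hs', hcompat]
  have hbase : ∀ σ (z : F) (w : M), eqv w = algebraMap F N z → s' σ w = w := by
    intro σ z w hw
    apply eqv.injective
    rw [hs', hw]
    exact (S σ).commutes z
  have hyY : Y' = algebraMap κ M δ * eqv.symm (algebraMap F N y) := by
    apply eqv.injective
    rw [hy, map_mul, eqv.apply_symm_apply]
  have hSec : Sec k κ R M x' Y' 1 s' := by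
    refine ⟨hconst, fun σ => hbase σ x _ hx, fun σ => ?_, fun z => ?_⟩
    · rw [map_one, div_one, map_one, one_mul, hyY, map_mul, hconst, hδ,
        hbase σ y _ (eqv.apply_symm_apply _)]
    · obtain ⟨E, hE, hE'⟩ := hcont (eqv z)
      refine ⟨E, hE, fun σ hσ => eqv.injective ?_⟩
      rw [hs', hE' σ hσ]
  obtain ⟨F0, iF0, r, hr, ⟨D⟩⟩ := hND A k κ V h1 h2 ℓ h3
  have hrot := hGEX ℓ κ R M x' B Y' hCov F0 V r hr hGood D
  obtain ⟨e, he⟩ : B.Nonempty := by
    rw [← Finset.card_pos]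
    have := hCov.three
    omega
  obtain ⟨O, c, W, hO, -⟩ := hrot e he
  have hun : ∀ O' : ValuationSubring M, Gauss V (algebraMap R M x') O' → O' = O :=
    fun O' hO' => hGUN ℓ κ R M x' B Y' hCov V hrot O' O hO' hO
  have hw := hWGTG ℓ A k κ R M V h3 h1 h2 x' B Y' hCov hGood F0 r hr D s' hSec O hO hun
  have hmem : ∀ z : N, z ∈ O.comap (eqv.symm : N →+* M) ↔ eqv.symm z ∈ O := fun z => Iff.rfl
  refine ⟨O.comap (eqv.symm : N →+* M), fun c hc => ?_, fun g hg hg' => ?_, fun σ hσ z hz => ?_⟩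
  · rw [comap_non, eqv.symm_apply_apply]
    exact hO.nonunit.2 hc
  · obtain ⟨g1, g2, g3⟩ := hO.2 g hg hg'
    refine ⟨(map_ne_zero_iff _ eqv.injective).2 g1, ?_, ?_⟩
    · rw [hmem, eqv.symm_apply_apply]
      exact g2
    · rw [hmem, map_inv₀, eqv.symm_apply_apply]
      exact g3
  · rw [comap_non, map_sub]
    have h4 : eqv.symm (S σ z) = s' σ (eqv.symm z) := by
      apply eqv.injective
      rw [hs', eqv.apply_symm_apply, eqv.apply_symm_apply]
    rw [h4]
    exact hw σ hσ _ ((hmem z).1 hz)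

end absM

section absI

variable {k κ R F Ω : Type} [Field k] [CharZero k]
    [Field κ] [Algebra k κ] [IsAlgClosure k κ]
    [Field R] [Field F] [Field Ω] [Algebra κ R] [Algebra R Ω] [Algebra κ Ω]
    [IsScalarTower κ R Ω] [IsAlgClosure R Ω] [Algebra F Ω] [Algebra.IsAlgebraic F Ω]

theorem gredI (hWGTG : S_WGTG) (hCOV : S_COV) (hND : S_NDISC) (hGEX : S_GEX) (hGUN : S_GUN)
    {ℓ : ℕ} [Fact ℓ.Prime]
    (V : ValuationSubring κ) (A : ValuationSubring k)
    [IsDiscreteValuationRing A] [Finite (IsLocalRing.ResidueField A)]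
    (h1 : ∀ a : A, algebraMap k κ (a : k) ∈ V)
    (h2 : ∀ a ∈ IsLocalRing.maximalIdeal A, algebraMap k κ (a : k) ∈ V.nonunits)
    (h3 : IsUnit (ℓ : A)) (δ : κ) (hδ0 : δ ≠ 0) (hδ : ∀ σ : κ ≃ₐ[k] κ, σ δ = δ)
    (x' : R) (hrat : RatF κ x') (B : Finset κ) (hdvd : ℓ ∣ B.card) (hB3 : 3 ≤ B.card)
    (hGood : Good V B) (Y0 : Ω)
    (hY : Y0 ^ ℓ = ∏ e ∈ B, (algebraMap R Ω x' - algebraMap κ Ω e))
    (x y : F) (hx : algebraMap R Ω x' = algebraMap F Ω x)
    (hy : Y0 = algebraMap κ Ω δ * algebraMap F Ω y)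
    (N : IntermediateField F Ω)
    (hN : ∀ z, z ∈ maxPro ℓ κ (IntermediateField.adjoin R {Y0}) Ω ↔ z ∈ N)
    (S : (κ ≃ₐ[k] κ) →* (N ≃ₐ[F] N))
    (hcont : ∀ z : N, ∃ E : IntermediateField k κ, FiniteDimensional k E ∧
      ∀ σ ∈ E.fixingSubgroup, S σ z = z)
    (hcompat : ∀ σ c (z : N), (z : Ω) = algebraMap κ Ω c → (S σ z : Ω) = algebraMap κ Ω (σ c)) :
    ∃ O : ValuationSubring N,
      (∀ (c : κ) (z : N), (z : Ω) = algebraMap κ Ω c → c ∈ V.nonunits → z ∈ O.nonunits) ∧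
      (∀ g : κ[X], (∀ n, g.coeff n ∈ V) → (∃ n, IsU V (g.coeff n)) →
        ∀ z : N, (z : Ω) = aeval (algebraMap F Ω x) g → IsU O z) ∧
      ∀ σ : κ ≃ₐ[k] κ, Ine V σ → ∀ z ∈ O, S σ z - z ∈ O.nonunits := by
  classical
  have hkb : IsAlgClosed κ := IsAlgClosure.isAlgClosed k
  have hch : CharZero κ := charZero_of_injective_algebraMap (algebraMap k κ).injective
  obtain ⟨M, hM⟩ : ∃ M : IntermediateField R Ω,
      ∀ z, z ∈ M ↔ z ∈ maxPro ℓ κ (IntermediateField.adjoin R {Y0}) Ω :=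
    ⟨(maxPro ℓ κ (IntermediateField.adjoin R {Y0}) Ω).restrictScalars R, fun z => Iff.rfl⟩
  have hYM : Y0 ∈ M := by
    rw [hM]
    exact (maxPro ℓ κ (IntermediateField.adjoin R {Y0}) Ω).algebraMap_mem
      ⟨Y0, IntermediateField.mem_adjoin_simple_self _ _⟩
  have hCov : Cov ℓ κ R M x' B ⟨Y0, hYM⟩ :=
    hCOV ℓ κ R Ω x' hrat B hdvd hB3 Y0 hY M hM ⟨Y0, hYM⟩ rfl
  have hMN : ∀ z, z ∈ M ↔ z ∈ N := fun z => (hM z).trans (hN z)
  let eqv : M ≃+* N :=
    { toFun := fun w => ⟨w.1, (hMN _).1 w.2⟩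
      invFun := fun w => ⟨w.1, (hMN _).2 w.2⟩
      left_inv := fun w => rfl
      right_inv := fun w => rfl
      map_mul' := fun w w' => rfl
      map_add' := fun w w' => rfl }
  have heqv : ∀ w : M, ((eqv w : N) : Ω) = (w : Ω) := fun w => rfl
  have hc : ∀ c : κ, ((eqv (algebraMap κ M c) : N) : Ω) = algebraMap κ Ω c := fun c => rfl
  obtain ⟨O, h5, h6, h7⟩ := gredM hWGTG hND hGEX hGUN V A h1 h2 h3 δ hδ0 hδ x' B
    ⟨Y0, hYM⟩ hCov hGood eqv x y (Subtype.ext hx) (Subtype.ext hy) S hcont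
    (fun σ c => Subtype.ext (hcompat σ c _ rfl))
  refine ⟨O, fun c z hz hcV => ?_, fun g hg hg' z hz => ?_, h7⟩
  · have h8 : z = eqv (algebraMap κ M c) := Subtype.ext hz
    rw [h8]
    exact h5 c hcV
  · have h8 : z = eqv (aeval (algebraMap R M x') g) := by
      apply Subtype.ext
      rw [hz, heqv, ← hx]
      have h9 : ((aeval (algebraMap R M x') g : M) : Ω) =
          algebraMap M Ω (aeval (algebraMap R M x') g) := rfl
      haveI : IsScalarTower κ M Ω := IsScalarTower.of_algebraMap_eq fun _ => rfl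
      rw [h9, ← aeval_algebraMap_apply]
      rfl
    rw [h8]
    exact h6 g hg hg'

end absI

end Pool.Agent.Y968.PC
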