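import Pool.Agent.Y968.PC.GRED0
import Pool.Agent.Y157.PS.All
import Pool.Agent.Y287.GT.WGTG

/-!
# A section acts trivially on inertia at the primes of good reduction (3)

(helper968, for project PC of helper157.)  The statement `S_GRED`.
-/

set_option autoImplicit false
set_option linter.all false

open Polynomial FF

namespace Pool.Agent.Y968.PC

open Pool.Agent.Y157.PS Pool.Agent.Y157.PC Pool.Agent.Y157.GT

/-- **a section acts trivially on inertia at the primes of good reduction** -/
theorem gred (hNFV : S_NFV) : S_GRED :=
  gred0 Pool.Agent.Y287.GT.wgtg a_cov a_ndisc a_gex a_gun hNFV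

end Pool.Agent.Y968.PC
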