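import Pool.Agent.Y968.PC.Core

/-!
# A section acts trivially on inertia at the primes of good reduction (2)

(helper968, for project PC of helper157.)
-/

set_option autoImplicit false
set_option linter.all false

open Polynomial FF

namespace Pool.Agent.Y968.PC

open Pool.Agent.Y157.PS Pool.Agent.Y157.PC Pool.Agent.Y157.GT

/-- the restriction of a continuous homomorphism to the group of a finite extension -/
theorem cont_res {κ F N : Type} [Field κ] [Algebra ℚ κ] [Field F] [Field N]
    [Algebra F N] [Algebra.IsAlgebraic F N] (S : (κ ≃ₐ[ℚ] κ) →* (N ≃ₐ[F] N)) (hS : Continuous S)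
    (k : IntermediateField ℚ κ) (hk : FiniteDimensional ℚ k) (w : N) :
    ∃ E : IntermediateField k κ, FiniteDimensional k E ∧
      ∀ σ ∈ E.fixingSubgroup, (S.comp (AlgEquiv.restrictScalarsHom ℚ)) σ w = w := by
  obtain ⟨E, hE, hE'⟩ := cont_fix S hS w
  haveI := hE
  haveI := hk
  have hle : k ≤ k ⊔ E := le_sup_left
  haveI hf : FiniteDimensional ℚ (k ⊔ E : IntermediateField ℚ κ) :=
    IntermediateField.finiteDimensional_sup k E
  refine ⟨IntermediateField.extendScalars hle, ?_, fun σ hσ => ?_⟩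
  · haveI : FiniteDimensional ℚ (IntermediateField.extendScalars hle) := hf
    exact FiniteDimensional.right ℚ k _
  · refine hE' _ ?_
    rw [IntermediateField.mem_fixingSubgroup_iff] at hσ ⊢
    intro z hz
    exact hσ z ((le_sup_right : E ≤ k ⊔ E) hz)

/-- the algebraic closure of `ℚ` in an algebraically closed field, with its canonical algebra
structure -/
theorem algClosQ (Ω : Type) [Field Ω] [Algebra ℚ Ω] [IsAlgClosed Ω] :
    IsAlgClosure ℚ (algebraicClosure ℚ Ω) := by
  have h : ∀ (k : Type) [Field k] [Algebra k Ω], IsAlgClosure k (algebraicClosure k Ω) :=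
    fun k _ _ => inferInstance
  have hs : (DivisionRing.toRatAlgebra : Algebra ℚ (algebraicClosure ℚ Ω)) =
      (algebraicClosure ℚ Ω).algebra' := Subsingleton.elim _ _
  exact hs ▸ h ℚ

theorem gred0 (hWGTG : S_WGTG) (hCOV : S_COV) (hND : S_NDISC) (hGEX : S_GEX) (hGUN : S_GUN)
    (hNFV : S_NFV) : S_GRED := by
  intro K _ _ e he heven hcard d p hp hp2 hpe hpd F Ω _ _ _ _ _ _ _ _ x y hx hxy hF S hS hcompat
    V hpV
  classical
  haveI : Fact (Nat.Prime 2) := ⟨Nat.prime_two⟩
  haveI hac : IsAlgClosure ℚ (algebraicClosure ℚ Ω) := algClosQ Ω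
  have hkb : IsAlgClosed (algebraicClosure ℚ Ω) := hac.1
  have hch : CharZero (algebraicClosure ℚ Ω) := inferInstance
  -- the integers
  have hint : ∀ m : ℤ, ¬ (p : ℤ) ∣ m → IsU V (m : algebraicClosure ℚ Ω) :=
    fun m hm => int_isU V hp hpV hm
  have h2V : IsU V (2 : algebraicClosure ℚ Ω) := by
    have := hint 2 hp2
    exact_mod_cast this
  have hdV := hint d hpd
  -- the element `δ`
  obtain ⟨δ, hδ⟩ : ∃ δ : algebraicClosure ℚ Ω, δ ^ 2 = (d : algebraicClosure ℚ Ω) :=
    IsAlgClosed.exists_pow_nat_eq _ (by norm_num)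
  have hδV : IsU V δ := isU_of_pow (n := 2) (by norm_num) (by rw [hδ]; exact hdV)
  have hδ0 : δ ≠ 0 := hδV.1
  -- the field `k`
  set k : IntermediateField ℚ (algebraicClosure ℚ Ω) := IntermediateField.adjoin ℚ {δ} with hk
  have hkf : FiniteDimensional ℚ k :=
    IntermediateField.adjoin.finiteDimensional (Algebra.IsIntegral.isIntegral _)
  obtain ⟨hA1, hA2⟩ := hNFV (algebraicClosure ℚ Ω) k hkf p hp V hpV
  haveI hIC : IsAlgClosure k (algebraicClosure ℚ Ω) :=
    ⟨hkb, Algebra.IsAlgebraic.tower_top (K := ℚ) k⟩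
  have hδk : δ ∈ k := IntermediateField.mem_adjoin_simple_self _ _
  have hAm : ∀ a ∈ IsLocalRing.maximalIdeal (V.comap (algebraMap k (algebraicClosure ℚ Ω))),
      algebraMap k (algebraicClosure ℚ Ω) (a : k) ∈ V.nonunits := by
    intro a ha
    rw [← comap_non']
    rw [← IsLocalRing.residue_eq_zero_iff] at ha
    exact (residue_zero_iff a).1 ha
  have h2A : IsUnit ((2 : ℕ) : V.comap (algebraMap k (algebraicClosure ℚ Ω))) := by
    by_contra hu
    have h5 := hAm _ ((IsLocalRing.mem_maximalIdeal _).2 hu)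
    have h6 : algebraMap k (algebraicClosure ℚ Ω)
        ((((2 : ℕ) : V.comap (algebraMap k (algebraicClosure ℚ Ω))) : k)) =
        (2 : algebraicClosure ℚ Ω) := by
      have h7 : ((((2 : ℕ) : V.comap (algebraMap k (algebraicClosure ℚ Ω))) : k)) = ((2 : ℕ) : k) :=
        map_natCast (V.comap (algebraMap k (algebraicClosure ℚ Ω))).subtype 2
      rw [h7, map_natCast]
      norm_num
    rw [h6] at h5
    exact h2V.not_nonunit h5
  -- the branch points
  have heinj : Function.Injective (fun i => ((e i : ℤ) : algebraicClosure ℚ Ω)) :=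
    fun i j hij => he (Int.cast_injective hij)
  set B : Finset (algebraicClosure ℚ Ω) :=
    Finset.univ.image (fun i => ((e i : ℤ) : algebraicClosure ℚ Ω)) with hB
  have hBc : B.card = Fintype.card K := by
    rw [hB, Finset.card_image_of_injective _ heinj, Finset.card_univ]
  have hGood : Good V B := by
    constructor
    · intro a ha
      obtain ⟨i, -, rfl⟩ := Finset.mem_image.1 ha
      exact intCast_mem V _
    · intro a ha b hb hab
      obtain ⟨i, -, rfl⟩ := Finset.mem_image.1 ha
      obtain ⟨j, -, rfl⟩ := Finset.mem_image.1 hb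
      have hij : i ≠ j := fun h => hab (by rw [h])
      have := hint _ (hpe i j hij)
      rwa [Int.cast_sub] at this
  -- the function `Y`
  set Y0 : Ω := (δ : Ω) * algebraMap F Ω y with hY0
  have hY : Y0 ^ 2 = ∏ a ∈ B, (algebraMap F Ω x - algebraMap (algebraicClosure ℚ Ω) Ω a) := by
    have h5 := congrArg (algebraMap F Ω) hxy
    rw [map_mul, map_pow, map_prod, ← IsScalarTower.algebraMap_apply] at h5
    have h6 : (δ : Ω) ^ 2 = algebraMap ℚ Ω (d : ℚ) := by
      have h7 := congrArg (algebraMap (algebraicClosure ℚ Ω) Ω) hδ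
      rw [map_pow, map_intCast] at h7
      rw [map_intCast]
      exact h7
    rw [hY0, mul_pow, h6, h5, hB, Finset.prod_image fun i _ j _ hij => heinj hij]
    refine Finset.prod_congr rfl fun i _ => ?_
    rw [map_sub, ← IsScalarTower.algebraMap_apply, map_intCast, map_intCast]
  have hX0 : Transcendental ℚ (algebraMap F Ω x) :=
    (transcendental_algebraMap_iff (R := ℚ) (algebraMap F Ω).injective (a := x)).2 hx
  have hrat := ratF_adj (trans_up hX0)
  have hYR : Y0 ^ 2 ∈ IntermediateField.adjoin (algebraicClosure ℚ Ω) {algebraMap F Ω x} := by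
    rw [hY]
    exact prod_mem fun a _ => sub_mem (IntermediateField.mem_adjoin_simple_self _ _)
      (IntermediateField.algebraMap_mem _ a)
  haveI hclR := closure_R hF δ hδ0 (by norm_num : 0 < 2) hYR
  obtain ⟨O, hO1, hO2, hO3⟩ :=
    gredI (R := IntermediateField.adjoin (algebraicClosure ℚ Ω) {algebraMap F Ω x}) hWGTG hCOV
      hND hGEX hGUN V (V.comap (algebraMap k (algebraicClosure ℚ Ω)))
      (fun a => a.2) hAm h2A δ hδ0 (fun σ => σ.commutes ⟨δ, hδk⟩)
      ⟨algebraMap F Ω x, IntermediateField.mem_adjoin_simple_self _ _⟩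
      hrat B (by rw [hBc]; exact heven.two_dvd) (by rw [hBc]; omega) hGood Y0 hY x y rfl hY0
      (geomPro 2 ℚ F Ω) (fun z => maxPro_geom 2 ℚ hF δ hδ0 z)
      (S.comp (AlgEquiv.restrictScalarsHom ℚ)) (fun z => cont_res S hS k hkf z)
      (fun σ c z hz => hcompat _ c z hz)
  refine ⟨O, ⟨hO1 (p : algebraicClosure ℚ Ω) _ ?_ hpV, fun g hg => ?_⟩, fun σ hσ z hz => ?_⟩
  · rw [map_natCast]
    rfl
  · refine hO2 (g.map (Int.castRingHom (algebraicClosure ℚ Ω))) (fun n => ?_) ?_ _ ?_
    · rw [coeff_map]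
      exact intCast_mem V _
    · obtain ⟨n, hn⟩ := hg
      refine ⟨n, ?_⟩
      rw [coeff_map]
      exact hint _ hn
    · have h8 : ((aeval (algebraMap F (geomPro 2 ℚ F Ω) x) g : geomPro 2 ℚ F Ω) : Ω) =
          algebraMap (geomPro 2 ℚ F Ω) Ω (aeval (algebraMap F (geomPro 2 ℚ F Ω) x) g) := rfl
      rw [h8, aeval_def, aeval_def, hom_eval₂, eval₂_map]
      congr 1
  · have hfix : σ δ = δ := ine_fix V h2V hσ hδV (by rw [hδ, map_intCast])
    have hfixk : ∀ c : k, σ (c : algebraicClosure ℚ Ω) = (c : algebraicClosure ℚ Ω) := by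
      have h9 : k ≤ IntermediateField.fixedField (Subgroup.zpowers σ) := by
        rw [hk, IntermediateField.adjoin_simple_le_iff]
        rw [IntermediateField.mem_fixedField_iff]
        intro τ hτ
        have h10 : Subgroup.zpowers σ ≤ MulAction.stabilizer
            (algebraicClosure ℚ Ω ≃ₐ[ℚ] algebraicClosure ℚ Ω) δ := by
          rw [Subgroup.zpowers_le]
          exact hfix
        exact h10 hτ
      intro c
      exact (IntermediateField.mem_fixedField_iff _ _).1 (h9 c.2) σ (Subgroup.mem_zpowers σ)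
    let σ' : algebraicClosure ℚ Ω ≃ₐ[k] algebraicClosure ℚ Ω :=
      AlgEquiv.ofRingEquiv (f := (σ : algebraicClosure ℚ Ω ≃+* algebraicClosure ℚ Ω)) hfixk
    have hσ' : AlgEquiv.restrictScalarsHom ℚ σ' = σ := AlgEquiv.ext fun _ => rfl
    have hI : Ine V σ' := hσ
    have h11 := hO3 σ' hI z hz
    rw [MonoidHom.comp_apply, hσ'] at h11
    exact h11

end Pool.Agent.Y968.PC
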